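import Pool.Agent.W_aaa0df_h71.Ups2

/-!
# Prescribed splitting patterns: few exceptions for every pattern
-/

set_option autoImplicit false

noncomputable section

open Finset MPaaa0df Pool.Agent.Wb58c63 BG

namespace Pat65

open Classical in
/-- The sum of `1 / p` over the primes `p` with `x ≤ p < y` such that `p` does not divide `d` and `d` is
a square modulo `4 p` if and only if `P p` holds; for a fundamental discriminant `d` these are the primes of
`P` which split and the primes outside `P` which are inert in `ℚ(√d)`. -/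
def patSum (P : ℕ → Prop) (d : ℤ) (x y : ℝ) : ℝ :=
  ∑ p ∈ (Finset.range ⌈y⌉₊).filter (fun p : ℕ => p.Prime ∧ x ≤ (p : ℝ) ∧ (p : ℝ) < y ∧
    ¬ ((p : ℤ) ∣ d) ∧ (P p ↔ ∃ t : ℤ, (4 * (p : ℤ)) ∣ t ^ 2 - d)), 1 / (p : ℝ)

open Classical in
/-- The sign opposite to the pattern: `-1` on `P`, `1` outside `P`. -/
def sg (P : ℕ → Prop) (p : ℕ) : ℤ := if P p then -1 else 1

open Classical in
/-- the primes in `[z, y)` at which some character of the family is not the sign opposite to the pattern -/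
def ExcP (P : ℕ → Prop) (F : Finset ℤ) (z y : ℝ) : Finset ℕ :=
  (range ⌈y⌉₊).filter (fun p => p.Prime ∧ z ≤ p ∧ (p : ℝ) < y ∧ ∃ d ∈ F, chi d p ≠ sg P p)

open Classical in
/-- The set of good numbers. -/
def GdP (P : ℕ → Prop) (F : Finset ℤ) (z y : ℝ) (N : ℕ) : Finset ℕ :=
  (Icc 1 N).filter (fun n => ∀ p : ℕ, p.Prime → p ∣ n → z ≤ p ∧ (p : ℝ) < y ∧ p ∉ ExcP P F z y)

theorem sg_ne (P : ℕ → Prop) (p : ℕ) : sg P p ≠ 0 := by
  unfold sg
  split_ifs <;> norm_num

theorem chi_eq (d d' : ℤ) (n : ℕ) : n ≠ 0 → (∀ p : ℕ, p.Prime → p ∣ n → chi d p = chi d' p) →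
    chi d n = chi d' n := by
  induction n using induction_on_primes with
  | zero => intro h; exact absurd rfl h
  | one =>
    intro _ _
    rw [chi_one, chi_one]
  | prime_mul p a hp ih =>
    intro h0 h
    have ha : a ≠ 0 := right_ne_zero_of_mul h0
    rw [chi_mul, chi_mul, ih ha (fun q hq hqa => h q hq (hqa.mul_left p)),
      h p hp (dvd_mul_right p a)]

theorem chi_ne (d : ℤ) (n : ℕ) : n ≠ 0 → (∀ p : ℕ, p.Prime → p ∣ n → chi d p ≠ 0) →
    chi d n ≠ 0 := by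
  induction n using induction_on_primes with
  | zero => intro h; exact absurd rfl h
  | one =>
    intro _ _
    rw [chi_one]
    exact one_ne_zero
  | prime_mul p a hp ih =>
    intro h0 h
    have ha : a ≠ 0 := right_ne_zero_of_mul h0
    rw [chi_mul]
    exact mul_ne_zero (h p hp (dvd_mul_right p a))
      (ih ha (fun q hq hqa => h q hq (hqa.mul_left p)))

theorem good_sg (P : ℕ → Prop) (F : Finset ℤ) (z y : ℝ) (N : ℕ) (n : ℕ) (hn : n ∈ GdP P F z y N)
    (d : ℤ) (hd : d ∈ F) (p : ℕ) (hp : p.Prime) (hpn : p ∣ n) : chi d p = sg P p := by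
  classical
  unfold GdP at hn
  rw [mem_filter, mem_Icc] at hn
  obtain ⟨⟨hn1, -⟩, hn2⟩ := hn
  obtain ⟨a, b, c⟩ := hn2 p hp hpn
  by_contra hne
  apply c
  unfold ExcP
  rw [mem_filter, mem_range, Nat.lt_ceil]
  exact ⟨b, hp, a, b, d, hd, hne⟩

/-- On the good numbers all characters of the family agree. -/
theorem sum_good (P : ℕ → Prop) (F : Finset ℤ) (z y : ℝ) (N : ℕ) (n : ℕ)
    (hn : n ∈ GdP P F z y N) :
    (∑ d ∈ F, (chi d n : ℝ)) ^ 2 = (F.card : ℝ) ^ 2 := by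
  classical
  have hn0 : n ≠ 0 := by
    have h := hn
    unfold GdP at h
    rw [mem_filter, mem_Icc] at h
    omega
  rcases F.eq_empty_or_nonempty with rfl | ⟨e, he⟩
  · simp
  have h1 : ∀ d ∈ F, (chi d n : ℝ) = (chi e n : ℝ) := by
    intro d hd
    have h2 := chi_eq d e n hn0 fun p hp hpn => by
      rw [good_sg P F z y N n hn d hd p hp hpn, good_sg P F z y N n hn e he p hp hpn]
    rw [h2]
  have h3 : chi e n ≠ 0 := chi_ne e n hn0 fun p hp hpn => by
    rw [good_sg P F z y N n hn e he p hp hpn]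
    exact sg_ne P p
  have h4 : ((chi e n : ℝ)) ^ 2 = 1 := by
    rcases chi_values e n with h | h | h
    · exact absurd h h3
    · rw [h]; norm_num
    · rw [h]; norm_num
  rw [Finset.sum_congr rfl h1, Finset.sum_const, nsmul_eq_mul, mul_pow, h4, mul_one]

theorem sub_Rc (P : ℕ → Prop) (F : Finset ℤ) (z y : ℝ) (N : ℕ) : GdP P F z y N ⊆ Rc F z N := by
  classical
  intro n hn
  have h := hn
  unfold GdP at h
  rw [mem_filter] at h
  obtain ⟨hn1, hn2⟩ := h
  have hn0 : n ≠ 0 := by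
    have := (mem_Icc.1 hn1).1
    omega
  unfold Rc
  rw [mem_filter]
  refine ⟨hn1, fun p hp hpn => (hn2 p hp hpn).1, fun d hd => ?_⟩
  exact chi_ne d n hn0 fun p hp hpn => by
    rw [good_sg P F z y N n hn d hd p hp hpn]
    exact sg_ne P p

theorem bessel_oddP (P : ℕ → Prop) (F : Finset ℤ) (hodd : Odd F.card) (z y : ℝ) (hz : 2 ≤ z) (b N : ℕ) (ρ' : ℝ)
    (hρ0 : 0 ≤ ρ') (hρ : ∀ d ∈ F, ∀ d' ∈ F, d ≠ d' →
      |∑ n ∈ Icc 1 N, Pool.Agent.M58.tp' z b n * ((chi d n : ℝ) * (chi d' n : ℝ))| ≤ ρ') :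
    ((F.card : ℝ) ^ 2 - 1) * (GdP P F z y N).card + (Rc F z N).card ≤
      F.card * ∑ n ∈ Icc 1 N, Pool.Agent.M58.tp' z b n + (F.card : ℝ) ^ 2 * ρ' := by
  classical
  have htp : ∀ n ∈ Icc 1 N, 0 ≤ Pool.Agent.M58.tp' z b n := fun n hn =>
    (Pool.Agent.M58.rh_bounds z hz b n (mem_Icc.1 hn).1).2.2
  have hcard : 1 ≤ (F.card : ℝ) ^ 2 := by
    have h0 : 1 ≤ F.card := by
      obtain ⟨k, hk⟩ := hodd
      omega
    have h1 : (1 : ℝ) ≤ F.card := by exact_mod_cast h0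
    nlinarith
  have htp1 : ∀ n ∈ Rc F z N, 1 ≤ Pool.Agent.M58.tp' z b n := by
    intro n hn
    unfold Rc at hn
    rw [mem_filter, mem_Icc] at hn
    obtain ⟨⟨hn1, -⟩, hn2, -⟩ := hn
    have h5 := (Pool.Agent.M58.rh_bounds z hz b n hn1).2.1
    rwa [Pool.Agent.M58.VC_rh_eq_one (by omega) fun p hp =>
      hn2 p (Nat.prime_of_mem_primeFactors hp) (Nat.dvd_of_mem_primeFactors hp)] at h5
  have h1 : ((F.card : ℝ) ^ 2 - 1) * (GdP P F z y N).card + (Rc F z N).card ≤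
      ∑ n ∈ Icc 1 N, Pool.Agent.M58.tp' z b n * (∑ d ∈ F, (chi d n : ℝ)) ^ 2 := by
    have h2 : ((F.card : ℝ) ^ 2 - 1) * (GdP P F z y N).card + (Rc F z N).card ≤
        ∑ n ∈ Rc F z N, Pool.Agent.M58.tp' z b n * (∑ d ∈ F, (chi d n : ℝ)) ^ 2 := by
      have h3 : ((F.card : ℝ) ^ 2 - 1) * (GdP P F z y N).card + (Rc F z N).card =
          ∑ n ∈ Rc F z N, ((if n ∈ GdP P F z y N then (F.card : ℝ) ^ 2 - 1 else 0) + 1) := by
        rw [Finset.sum_add_distrib, Finset.sum_const, nsmul_eq_mul, mul_one,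
          ← Finset.sum_filter, Finset.sum_const, nsmul_eq_mul,
          Finset.filter_mem_eq_inter, Finset.inter_eq_right.2 (sub_Rc P F z y N)]
        ring
      rw [h3]
      refine Finset.sum_le_sum fun n hn => ?_
      have h4 := htp1 n hn
      by_cases h5 : n ∈ GdP P F z y N
      · rw [if_pos h5, sum_good P F z y N n h5]
        nlinarith
      · rw [if_neg h5, zero_add]
        have h6 : 1 ≤ (∑ d ∈ F, (chi d n : ℝ)) ^ 2 := by
          unfold Rc at hn
          rw [mem_filter] at hn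
          exact VF_sq F hodd n hn.2.2
        nlinarith
    refine h2.trans (Finset.sum_le_sum_of_subset_of_nonneg ?_ ?_)
    · unfold Rc
      exact Finset.filter_subset _ _
    · intro n hn _
      exact mul_nonneg (htp n hn) (sq_nonneg _)
  have h2 : ∑ n ∈ Icc 1 N, Pool.Agent.M58.tp' z b n * (∑ d ∈ F, (chi d n : ℝ)) ^ 2 =
      ∑ d ∈ F, ∑ d' ∈ F, ∑ n ∈ Icc 1 N,
        Pool.Agent.M58.tp' z b n * ((chi d n : ℝ) * (chi d' n : ℝ)) := by
    have h3 : ∀ n ∈ Icc 1 N, Pool.Agent.M58.tp' z b n * (∑ d ∈ F, (chi d n : ℝ)) ^ 2 =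
        ∑ d ∈ F, ∑ d' ∈ F, Pool.Agent.M58.tp' z b n * ((chi d n : ℝ) * (chi d' n : ℝ)) := by
      intro n _
      rw [sq, Finset.sum_mul_sum, Finset.mul_sum]
      refine Finset.sum_congr rfl fun d _ => ?_
      rw [Finset.mul_sum]
    rw [Finset.sum_congr rfl h3, Finset.sum_comm]
    refine Finset.sum_congr rfl fun d _ => ?_
    rw [Finset.sum_comm]
  rw [h2] at h1
  refine h1.trans ?_
  have h3 : ∀ d ∈ F, ∀ d' ∈ F, ∑ n ∈ Icc 1 N,
        Pool.Agent.M58.tp' z b n * ((chi d n : ℝ) * (chi d' n : ℝ)) ≤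
      (if d = d' then ∑ n ∈ Icc 1 N, Pool.Agent.M58.tp' z b n else 0) + ρ' := by
    intro d hd d' hd'
    by_cases h : d = d'
    · rw [if_pos h, ← h]
      have h4 : ∑ n ∈ Icc 1 N, Pool.Agent.M58.tp' z b n * ((chi d n : ℝ) * (chi d n : ℝ)) ≤
          ∑ n ∈ Icc 1 N, Pool.Agent.M58.tp' z b n := by
        refine Finset.sum_le_sum fun n hn => ?_
        have h5 : ((chi d n : ℝ) * (chi d n : ℝ)) ≤ 1 := by
          rcases chi_values d n with h | h | h <;> rw [h] <;> norm_num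
        have h6 := htp n hn
        nlinarith
      linarith
    · rw [if_neg h, zero_add]
      exact (le_abs_self _).trans (hρ d hd d' hd' h)
  refine (Finset.sum_le_sum fun d hd => Finset.sum_le_sum fun d' hd' => h3 d hd d' hd').trans ?_
  apply le_of_eq
  have h4 : ∀ d ∈ F, ∑ d' ∈ F, ((if d = d' then ∑ n ∈ Icc 1 N, Pool.Agent.M58.tp' z b n else 0) + ρ') =
      (∑ n ∈ Icc 1 N, Pool.Agent.M58.tp' z b n) + F.card * ρ' := by
    intro d hd
    rw [Finset.sum_add_distrib, Finset.sum_ite_eq, if_pos hd, Finset.sum_const, nsmul_eq_mul]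
  rw [Finset.sum_congr rfl h4, Finset.sum_const, nsmul_eq_mul]
  ring

theorem Exmem {P : ℕ → Prop} {F : Finset ℤ} {z y : ℝ} : ∀ p ∈ ExcP P F z y, p.Prime ∧ z ≤ p := by
  intro p hp
  unfold ExcP at hp
  rw [mem_filter] at hp
  exact ⟨hp.2.1, hp.2.2.1⟩

theorem DG_GdP (P : ℕ → Prop) (F : Finset ℤ) (z y : ℝ) (N : ℕ) :
    ((SR z y N).card : ℝ) - ∑ p ∈ ExcP P F z y, ∑ m ∈ Icc 1 (N / p), Pool.Agent.M58.rh z m ≤
      ((GdP P F z y N).card : ℝ) := by
  classical
  have h1 : SR z y N ⊆ GdP P F z y N ∪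
      (ExcP P F z y).biUnion (fun p => (SR z y N).filter (fun n => p ∣ n)) := by
    intro n hn
    rw [mem_union]
    by_cases h : ∃ p ∈ ExcP P F z y, p ∣ n
    · right
      obtain ⟨p, hp, hpn⟩ := h
      rw [mem_biUnion]
      exact ⟨p, hp, mem_filter.2 ⟨hn, hpn⟩⟩
    · left
      push Not at h
      unfold SR at hn
      rw [mem_filter] at hn
      unfold GdP
      rw [mem_filter]
      exact ⟨hn.1, fun p hp hpn =>
        ⟨(hn.2 p hp hpn).1, (hn.2 p hp hpn).2, fun hE => h p hE hpn⟩⟩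
  have h2 := (Finset.card_le_card h1).trans
    ((Finset.card_union_le _ _).trans (Nat.add_le_add_left Finset.card_biUnion_le _))
  have h3 : ((SR z y N).card : ℝ) ≤ ((GdP P F z y N).card : ℝ) +
      ∑ p ∈ ExcP P F z y, (((SR z y N).filter (fun n => p ∣ n)).card : ℝ) := by
    exact_mod_cast h2
  have h4 : ∑ p ∈ ExcP P F z y, (((SR z y N).filter (fun n => p ∣ n)).card : ℝ) ≤
      ∑ p ∈ ExcP P F z y, ∑ m ∈ Icc 1 (N / p), Pool.Agent.M58.rh z m :=
    sum_le_sum fun p hp => W71.mult_card z y N p (Exmem p hp).1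
  linarith

theorem chi_dvd (d : ℤ) (hd : d % 4 = 0 ∨ d % 4 = 1) (p : ℕ) (hp : p.Prime)
    (h : (p : ℤ) ∣ d) : chi d p = 0 := by
  rcases chi_values d p with h0 | h0 | h0
  · exact h0
  · exact absurd h ((chi_split d hd p hp).2 h0).1
  · exfalso
    rcases hp.eq_two_or_odd' with rfl | hodd
    · rw [C1_two] at h0
      have h2 : d % 2 = 0 := Int.emod_eq_zero_of_dvd (by exact_mod_cast h)
      split_ifs at h0 <;> omega
    · rw [chi_odd d p hodd] at h0
      have := Fact.mk hp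
      have h1 : jacobiSym d p = 0 := by
        rw [← jacobiSym.legendreSym.to_jacobiSym, legendreSym.eq_zero_iff]
        exact (ZMod.intCast_zmod_eq_zero_iff_dvd _ _).2 h
      rw [h1] at h0
      norm_num at h0

/-- The sum of `1 / p` over the exceptional primes. -/
theorem sum_ExcP (P : ℕ → Prop) (F : Finset ℤ) (X z y σ : ℝ) (hz : 0 < z)
    (hF : ∀ d ∈ F, Twist.Fund d ∧ |(d : ℝ)| ≤ X ∧ patSum P d z y ≤ σ) :
    ∑ p ∈ ExcP P F z y, 1 / (p : ℝ) ≤ F.card * (σ + 2 * Real.log X / z) := by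
  classical
  have h1 : ExcP P F z y ⊆ F.biUnion (fun d =>
      (range ⌈y⌉₊).filter (fun p : ℕ => p.Prime ∧ z ≤ (p : ℝ) ∧ (p : ℝ) < y ∧
        ¬ ((p : ℤ) ∣ d) ∧ (P p ↔ ∃ t : ℤ, (4 * (p : ℤ)) ∣ t ^ 2 - d)) ∪
      d.natAbs.primeFactors.filter (fun p : ℕ => z ≤ (p : ℝ))) := by
    intro p hp
    unfold ExcP at hp
    rw [mem_filter] at hp
    obtain ⟨hr, hp1, hp3, hp2, d, hdF, hd⟩ := hp
    obtain ⟨hd0, hd4⟩ := fund_mod d (hF d hdF).1
    rw [mem_biUnion]
    refine ⟨d, hdF, ?_⟩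
    rw [mem_union, mem_filter, mem_filter]
    by_cases h : chi d p = 0
    · right
      rw [Nat.mem_primeFactors]
      exact ⟨⟨hp1, Int.natCast_dvd.1 (chi_zero d hd4 p hp1 h), Int.natAbs_ne_zero.2 hd0⟩, hp3⟩
    · left
      refine ⟨hr, hp1, hp3, hp2, fun h7 => h (chi_dvd d hd4 p hp1 h7), ?_⟩
      unfold sg at hd
      have h8 := chi_split d hd4 p hp1
      have h9 : ¬ ((p : ℤ) ∣ d) := fun h7 => h (chi_dvd d hd4 p hp1 h7)
      by_cases hP : P p
      · rw [if_pos hP] at hd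
        have h10 : chi d p = 1 := by
          rcases chi_values d p with h | h | h
          · exact absurd h (by assumption)
          · exact h
          · exact absurd h hd
        exact ⟨fun _ => (h8.2 h10).2, fun _ => hP⟩
      · rw [if_neg hP] at hd
        exact ⟨fun h11 => absurd h11 hP, fun h11 => absurd (h8.1 ⟨h9, h11⟩) hd⟩
  have hnn : ∀ p : ℕ, (0 : ℝ) ≤ 1 / (p : ℝ) := fun p => by positivity
  have h2 : ∑ p ∈ ExcP P F z y, 1 / (p : ℝ) ≤ ∑ d ∈ F, (σ + 2 * Real.log X / z) := by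
    refine (Finset.sum_le_sum_of_subset_of_nonneg h1 fun p _ _ => hnn p).trans ?_
    refine (W71.sum_biUnion_le' _ _ _ hnn).trans (sum_le_sum fun d hd => ?_)
    refine (W71.sum_union_le' _ _ _ hnn).trans (add_le_add ?_ ?_)
    · have h3 := (hF d hd).2.2
      unfold patSum at h3
      convert h3
    · obtain ⟨hd0, -⟩ := fund_mod d (hF d hd).1
      refine (Finset.sum_le_sum (g := fun _ => 1 / z) fun p hp => ?_).trans ?_
      · exact one_div_le_one_div_of_le hz (mem_filter.1 hp).2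
      · rw [sum_const, nsmul_eq_mul]
        have h4 : (((d.natAbs.primeFactors.filter (fun p : ℕ => z ≤ (p : ℝ))).card : ℕ) : ℝ) ≤
            2 * Real.log X :=
          (Nat.cast_le.2 (Finset.card_le_card (filter_subset _ _))).trans
            (VD_primeFactors d hd0 X (hF d hd).2.1)
        have h5 := mul_le_mul_of_nonneg_right h4 (show (0 : ℝ) ≤ 1 / z by positivity)
        refine h5.trans (le_of_eq ?_)
        ring
  refine h2.trans ?_
  rw [sum_const, nsmul_eq_mul]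

theorem card_ExcP_le (P : ℕ → Prop) (F : Finset ℤ) (z y : ℝ) (hy : 0 ≤ y) :
    ((ExcP P F z y).card : ℝ) ≤ y + 1 := by
  have h1 : (ExcP P F z y).card ≤ ⌈y⌉₊ := by
    unfold ExcP
    exact (Finset.card_filter_le _ _).trans (by rw [card_range])
  have h2 : (⌈y⌉₊ : ℝ) < y + 1 := Nat.ceil_lt_add_one hy
  have h3 : ((ExcP P F z y).card : ℝ) ≤ (⌈y⌉₊ : ℝ) := by exact_mod_cast h1
  linarith

/-- The rough numbers with an exceptional prime factor. -/
theorem Ex_boundP {P : ℕ → Prop} {F : Finset ℤ} {X z y σ C₁ κ W V M t : ℝ} {b N : ℕ} (hX : 1 ≤ X) (hb1 : 1 ≤ b)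
    (hz : 2 ≤ z) (hy : 1 ≤ y) (hC₁ : 1 ≤ C₁) (hV : 0 ≤ V) (hW : W = N * V) (hM : 0 ≤ M)
    (hcard : (F.card : ℝ) = M)
    (hup : ∀ N : ℕ, ∑ n ∈ Icc 1 N, Pool.Agent.M58.rh z n ≤
        N * (V * (1 + C₁ * Real.exp (-b))) + z ^ (4 * b + 5))
    (hF : ∀ d ∈ F, Twist.Fund d ∧ |(d : ℝ)| ≤ X ∧ patSum P d z y ≤ σ)
    (h1 : (1 + C₁) * (M * σ) ≤ κ / 32) (h2 : (1 + C₁) * (M * (2 * Real.log X / z)) ≤ κ / 32)
    (h3 : 2 * y * z ^ (4 * b + 5) ≤ κ / 16 * W) :
    ∑ p ∈ ExcP P F z y, ∑ m ∈ Icc 1 (N / p), Pool.Agent.M58.rh z m ≤ κ / 8 * W := by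
  have hz0 : 0 < z := by linarith
  have hZ : 0 ≤ z ^ (4 * b + 5) := by positivity
  have hW0 : 0 ≤ W := by rw [hW]; positivity
  have hs := sum_ExcP P F X z y σ hz0 hF
  rw [hcard] at hs
  have he : Real.exp (-(b : ℝ)) ≤ 1 := by
    rw [Real.exp_le_one_iff]
    have : (0 : ℝ) ≤ b := Nat.cast_nonneg b
    linarith
  have hterm : ∀ p ∈ ExcP P F z y, ∑ m ∈ Icc 1 (N / p), Pool.Agent.M58.rh z m ≤
      W * (1 + C₁) * (1 / (p : ℝ)) + z ^ (4 * b + 5) := by
    intro p hp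
    refine (hup (N / p)).trans ?_
    have h4 : ((N / p : ℕ) : ℝ) ≤ (N : ℝ) / p := Nat.cast_div_le
    have h5 : V * (1 + C₁ * Real.exp (-b)) ≤ V * (1 + C₁) := by
      apply mul_le_mul_of_nonneg_left _ hV
      have := mul_le_mul_of_nonneg_left he (show 0 ≤ C₁ by linarith)
      linarith
    have h6 : ((N / p : ℕ) : ℝ) * (V * (1 + C₁ * Real.exp (-b))) ≤
        (N : ℝ) / p * (V * (1 + C₁)) := by
      apply mul_le_mul h4 h5 _ (by positivity)
      have := Real.exp_pos (-(b : ℝ))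
      have hC0 : 0 ≤ C₁ := by linarith
      positivity
    have h7 : (N : ℝ) / p * (V * (1 + C₁)) = W * (1 + C₁) * (1 / (p : ℝ)) := by
      rw [hW]; ring
    linarith
  refine (sum_le_sum hterm).trans ?_
  rw [sum_add_distrib, ← mul_sum, sum_const, nsmul_eq_mul]
  have h8 : W * (1 + C₁) * ∑ p ∈ ExcP P F z y, 1 / (p : ℝ) ≤ κ / 16 * W := by
    have h9 := mul_le_mul_of_nonneg_left hs (show 0 ≤ W * (1 + C₁) by
      have hC0 : 0 ≤ C₁ := by linarith
      positivity)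
    refine h9.trans ?_
    have h10 : W * (1 + C₁) * (M * (σ + 2 * Real.log X / z)) =
        W * ((1 + C₁) * (M * σ) + (1 + C₁) * (M * (2 * Real.log X / z))) := by ring
    rw [h10]
    have h11 := mul_le_mul_of_nonneg_left (add_le_add h1 h2) hW0
    refine h11.trans (le_of_eq ?_)
    ring
  have h12 : ((ExcP P F z y).card : ℝ) * z ^ (4 * b + 5) ≤ κ / 16 * W := by
    refine le_trans ?_ h3
    apply mul_le_mul_of_nonneg_right _ hZ
    have := card_ExcP_le P F z y (by linarith)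
    linarith
  have h13 : κ / 8 * W = κ / 16 * W + κ / 16 * W := by ring
  rw [h13]
  exact add_le_add h8 h12

end Pat65
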