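import Pool.Agent.W_aaa0df_p65.PatB

/-!
# Prescribed splitting patterns: two characters
-/

set_option autoImplicit false

noncomputable section

open Finset MPaaa0df Pool.Agent.Wb58c63 BG

namespace Pat65

theorem besselP (P : ℕ → Prop) (F : Finset ℤ) (z y : ℝ) (hz : 2 ≤ z) (b N : ℕ) (ρ' : ℝ) (hρ0 : 0 ≤ ρ')
    (hρ : ∀ d ∈ F, ∀ d' ∈ F, d ≠ d' →
      |∑ n ∈ Icc 1 N, Pool.Agent.M58.tp' z b n * ((chi d n : ℝ) * (chi d' n : ℝ))| ≤ ρ') :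
    (F.card : ℝ) ^ 2 * (GdP P F z y N).card ≤
      F.card * ∑ n ∈ Icc 1 N, Pool.Agent.M58.tp' z b n + (F.card : ℝ) ^ 2 * ρ' := by
  classical
  have htp : ∀ n ∈ Icc 1 N, 0 ≤ Pool.Agent.M58.tp' z b n := fun n hn =>
    (Pool.Agent.M58.rh_bounds z hz b n (mem_Icc.1 hn).1).2.2
  have h1 : (F.card : ℝ) ^ 2 * (GdP P F z y N).card ≤
      ∑ n ∈ Icc 1 N, Pool.Agent.M58.tp' z b n * (∑ d ∈ F, (chi d n : ℝ)) ^ 2 := by
    have h2 : (F.card : ℝ) ^ 2 * (GdP P F z y N).card ≤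
        ∑ n ∈ GdP P F z y N, Pool.Agent.M58.tp' z b n * (∑ d ∈ F, (chi d n : ℝ)) ^ 2 := by
      have h3 : (F.card : ℝ) ^ 2 * (GdP P F z y N).card = ∑ n ∈ GdP P F z y N, (F.card : ℝ) ^ 2 := by
        rw [Finset.sum_const, nsmul_eq_mul, mul_comm]
      rw [h3]
      refine Finset.sum_le_sum fun n hn => ?_
      rw [sum_good P F z y N n hn]
      have h4 : 1 ≤ Pool.Agent.M58.tp' z b n := by
        unfold GdP at hn
        rw [mem_filter, mem_Icc] at hn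
        obtain ⟨⟨hn1, -⟩, hn2⟩ := hn
        have h5 := (Pool.Agent.M58.rh_bounds z hz b n hn1).2.1
        rwa [Pool.Agent.M58.VC_rh_eq_one (by omega) fun p hp =>
          (hn2 p (Nat.prime_of_mem_primeFactors hp) (Nat.dvd_of_mem_primeFactors hp)).1] at h5
      have h5 : 0 ≤ (F.card : ℝ) ^ 2 := by positivity
      nlinarith
    refine h2.trans (Finset.sum_le_sum_of_subset_of_nonneg ?_ ?_)
    · unfold GdP
      exact Finset.filter_subset _ _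
    · intro n hn _
      exact mul_nonneg (htp n hn) (sq_nonneg _)
  have h2 : ∑ n ∈ Icc 1 N, Pool.Agent.M58.tp' z b n * (∑ d ∈ F, (chi d n : ℝ)) ^ 2 =
      ∑ d ∈ F, ∑ d' ∈ F, ∑ n ∈ Icc 1 N,
        Pool.Agent.M58.tp' z b n * ((chi d n : ℝ) * (chi d' n : ℝ)) := by
    have h3 : ∀ n ∈ Icc 1 N, Pool.Agent.M58.tp' z b n * (∑ d ∈ F, (chi d n : ℝ)) ^ 2 =
        ∑ d ∈ F, ∑ d' ∈ F, Pool.Agent.M58.tp' z b n * ((chi d n : ℝ) * (chi d' n : ℝ)) := by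
      intro n _
      rw [sq, Finset.sum_mul_sum, Finset.mul_sum]
      refine Finset.sum_congr rfl fun d _ => ?_
      rw [Finset.mul_sum]
    rw [Finset.sum_congr rfl h3, Finset.sum_comm]
    refine Finset.sum_congr rfl fun d _ => ?_
    rw [Finset.sum_comm]
  rw [h2] at h1
  refine h1.trans ?_
  have h3 : ∀ d ∈ F, ∀ d' ∈ F, ∑ n ∈ Icc 1 N,
        Pool.Agent.M58.tp' z b n * ((chi d n : ℝ) * (chi d' n : ℝ)) ≤
      (if d = d' then ∑ n ∈ Icc 1 N, Pool.Agent.M58.tp' z b n else 0) + ρ' := by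
    intro d hd d' hd'
    by_cases h : d = d'
    · rw [if_pos h, ← h]
      have h4 : ∑ n ∈ Icc 1 N, Pool.Agent.M58.tp' z b n * ((chi d n : ℝ) * (chi d n : ℝ)) ≤
          ∑ n ∈ Icc 1 N, Pool.Agent.M58.tp' z b n := by
        refine Finset.sum_le_sum fun n hn => ?_
        have h5 : ((chi d n : ℝ) * (chi d n : ℝ)) ≤ 1 := by
          rcases chi_values d n with h | h | h <;> rw [h] <;> norm_num
        have h6 := htp n hn
        nlinarith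
      linarith
    · rw [if_neg h, zero_add]
      exact (le_abs_self _).trans (hρ d hd d' hd' h)
  refine (Finset.sum_le_sum fun d hd => Finset.sum_le_sum fun d' hd' => h3 d hd d' hd').trans ?_
  apply le_of_eq
  have h4 : ∀ d ∈ F, ∑ d' ∈ F, ((if d = d' then ∑ n ∈ Icc 1 N, Pool.Agent.M58.tp' z b n else 0) + ρ') =
      (∑ n ∈ Icc 1 N, Pool.Agent.M58.tp' z b n) + F.card * ρ' := by
    intro d hd
    rw [Finset.sum_add_distrib, Finset.sum_ite_eq, if_pos hd, Finset.sum_const, nsmul_eq_mul]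
  rw [Finset.sum_congr rfl h4, Finset.sum_const, nsmul_eq_mul]
  ring

/-- The contradiction for fixed large `X`, two characters. -/
theorem DG_fix0 {P : ℕ → Prop} {κ C₁ C₂ cV CV c₀ c₁ X ℓ z y A8 B38 Dδ Dδ' : ℝ} {b N : ℕ}
    {F : Finset ℤ} (hcard : F.card = 2) (hb1 : 1 ≤ b)
    (hκ : 0 < κ) (hc₀ : 0 < c₀) (hcV : 0 < cV) (hC₁ : 1 ≤ C₁) (hC₂ : 1 ≤ C₂)
    (hc₁ : 1 / 2 + 20 * κ ≤ c₁)
    (hb : 4 * (C₁ + C₂ + 0) * Real.exp (-(b : ℝ)) ≤ κ)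
    (hup : ∀ (z : ℝ) (b N : ℕ), 2 ≤ z → 1 ≤ b →
      ∑ n ∈ Icc 1 N, Pool.Agent.M58.rh z n ≤ ∑ n ∈ Icc 1 N, Pool.Agent.M58.tp' z b n ∧
      ∑ n ∈ Icc 1 N, Pool.Agent.M58.tp' z b n ≤
        N * (VP (fun p => 1 / (p : ℝ)) (PI 0 z) *
          (1 + C₁ * Real.exp (-b))) + z ^ (4 * b + 5))
    (hVP : ∀ z : ℝ, 2 ≤ z → cV / Real.log z ≤
      VP (fun p => 1 / (p : ℝ)) (PI 0 z) ∧
      VP (fun p => 1 / (p : ℝ)) (PI 0 z) ≤ CV / Real.log z)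
    (g2 : 1 ≤ X) (hℓ : ℓ = Real.log X) (hℓ0 : 0 < ℓ) (g3 : 2 ≤ z)
    (hlz : Real.log z = c₀ * ℓ) (hN1 : 1 ≤ (N : ℝ)) (hX48 : A8 * B38 ≤ N)
    (hZ8 : z ^ (4 * b + 5) ≤ A8) (hB0' : 0 < B38) (hZδ : z ^ (4 * b + 5) ≤ Dδ)
    (hDD : Dδ * Dδ' * Dδ = 1) (hD0 : 0 < Dδ) (hD0' : 0 < Dδ')
    (g9 : 8 * c₀ / (κ * cV) * ℓ * 1 ≤ B38)
    (g13 : 8 * c₀ / (κ * cV) * ℓ * 1 ≤ Dδ)
    (hEx : ∑ p ∈ ExcP P F z y, ∑ n ∈ Icc 1 (N / p), Pool.Agent.M58.rh z n ≤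
      κ / 8 * (N * VP (fun p => 1 / (p : ℝ)) (PI 0 z)))
    (hcor : ∀ d ∈ F, ∀ d' ∈ F, d ≠ d' →
      |∑ n ∈ Icc 1 N, Pool.Agent.M58.tp' z b n * ((chi d n : ℝ) * (chi d' n : ℝ))| ≤
        z ^ (4 * b + 5) * (N * Dδ'))
    (hSR : (c₁ - κ) * VP (fun p => 1 / (p : ℝ)) (PI 0 z) * (N : ℝ) ≤
      ((SR z y N).card : ℝ)) : False := by
  have hN0 : (0 : ℝ) < N := by linarith only [hN1]
  have hcard' : (F.card : ℝ) = 2 := by rw [hcard]; norm_num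
  have hz0 : 0 < z := by linarith only [g3]
  have hG := DG_GdP P F z y N
  obtain ⟨-, hTp⟩ := hup z b N g3 hb1
  obtain ⟨hV, -⟩ := hVP z g3
  clear hup hVP
  rw [hlz] at hV
  obtain ⟨t, ht⟩ : ∃ t, t = cV / (c₀ * ℓ) := ⟨_, rfl⟩
  rw [← ht] at hV
  have ht0 : 0 < t := by rw [ht]; positivity
  generalize VP (fun p => 1 / (p : ℝ)) (PI 0 z) = V at hV hTp hSR hEx
  have hV0 : 0 < V := by linarith only [hV, ht0]
  obtain ⟨W, hW⟩ : ∃ W : ℝ, W = N * V := ⟨_, rfl⟩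
  rw [← hW] at hEx
  have hW0 : 0 < W := by rw [hW]; positivity
  have hWt : N * t ≤ W := by rw [hW]; exact mul_le_mul_of_nonneg_left hV hN0.le
  have hZ0 : 0 ≤ z ^ (4 * b + 5) := pow_nonneg hz0.le _
  have q9 := VG_q hκ hcV hc₀ hℓ0 ht g9
  have q13 := VG_q hκ hcV hc₀ hℓ0 ht g13
  clear g9 g13
  have e5 : z ^ (4 * b + 5) ≤ κ / 8 * W := by
    have := VG_err1 hκ ht0 hWt hZ0 hB0' q9 hZ8 hX48
    rwa [one_mul] at this
  have e6 := VG_err6 hκ hN0.le hWt hD0 hD0' hDD hZδ q13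
  have hbes := besselP P F z y g3 b N (z ^ (4 * b + 5) * (N * Dδ'))
    (mul_nonneg hZ0 (mul_nonneg hN0.le hD0'.le)) hcor
  rw [hcard'] at hbes
  have he0 : 0 < Real.exp (-(b : ℝ)) := Real.exp_pos _
  have hTp' : ∑ n ∈ Icc 1 N, Pool.Agent.M58.tp' z b n ≤
      W * (1 + C₁ * Real.exp (-(b : ℝ))) + κ / 8 * W := by
    refine hTp.trans ?_
    have h1 : (N : ℝ) * (V * (1 + C₁ * Real.exp (-(b : ℝ)))) =
        W * (1 + C₁ * Real.exp (-(b : ℝ))) := by rw [hW]; ring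
    rw [h1]
    linarith only [e5]
  generalize Real.exp (-(b : ℝ)) = e at hb he0 hTp'
  have h1 : (c₁ - κ) * V * (N : ℝ) = W * (c₁ - κ) := by rw [hW]; ring
  rw [h1] at hSR
  have h2 : C₁ * e ≤ κ / 4 := by
    have h3 : 0 ≤ C₂ * e := mul_nonneg (by linarith only [hC₂]) he0.le
    linarith only [h3, hb]
  have h3 : W * (C₁ * e) ≤ W * (κ / 4) := mul_le_mul_of_nonneg_left h2 hW0.le
  have h4 : W * (1 / 2 + 19 * κ) ≤ W * (c₁ - κ) :=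
    mul_le_mul_of_nonneg_left (by linarith only [hc₁]) hW0.le
  have h5 : 0 < W * κ := mul_pos hW0 hκ
  nlinarith [hG, hEx, hSR, hTp', hbes, e6, h3, h4, h5]

theorem DG_main0 (θ θ' c₁ : ℝ) (hθ' : 0 < θ') (hθθ' : θ' < θ)
    (hθ4 : θ ≤ 1 / 3) (hc : 1 / 2 < c₁)
    (hΨ : ∃ N₀ : ℝ, ∀ N : ℕ, N₀ ≤ N → c₁ * N ≤ Psi N ((N : ℝ) ^ (2 * θ'))) :
    ∃ c σ X₀ : ℝ, 0 < c ∧ 0 < σ ∧ ∀ X : ℝ, X₀ ≤ X → ∀ (P : ℕ → Prop) (F : Finset ℤ),
      (∀ d ∈ F, Twist.Fund d ∧ |(d : ℝ)| ≤ X ∧ patSum P d (X ^ c) (X ^ θ) < σ) →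
      F.card = 2 → False := by
  obtain ⟨N₁, hΨ⟩ := hΨ
  obtain ⟨κ, hκdef⟩ : ∃ κ : ℝ, κ = (c₁ - 1 / 2) / 20 := ⟨_, rfl⟩
  have hκ : 0 < κ := by
    rw [hκdef]
    linarith only [hc]
  have hc₁ : 1 / 2 + 20 * κ ≤ c₁ := by
    rw [hκdef]
    linarith only
  obtain ⟨B, μ, N₂, hμ, hgs⟩ := good_scale κ hκ
  obtain ⟨ε, hε, hε'⟩ : ∃ ε : ℝ, 0 < ε ∧ θ' * (1 + 4 * ε) ≤ θ := by
    refine ⟨(θ - θ') / (4 * θ'), div_pos (by linarith) (by linarith), le_of_eq ?_⟩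
    field_simp
    ring
  obtain ⟨δ, X₁, hδ, hcorr⟩ := corr ε hε
  obtain ⟨C₁, hC₁, hup⟩ := Pool.Agent.M58.rough_upper
  obtain ⟨C₂, hC₂, hlow⟩ := Pool.Agent.M58.rough_lower
  obtain ⟨cV, CV, hcV, -, hVP⟩ := Pool.Agent.M58.VP_inv
  obtain ⟨b, hb1, hb⟩ := VG_b (C₁ + C₂ + 0) κ (by linarith only [hC₁, hC₂]) hκ
  obtain ⟨c₀, hc₀, hμ1, hμ2, hμ3, hμ4'⟩ := VG_c0 (ε / 2) (δ / 2) (min (μ / 2) (1 / 24))
    (4 * ((b + B : ℕ) : ℝ) + 8) (by positivity) (by positivity)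
    (lt_min (by positivity) (by norm_num)) (by positivity)
  have hμ5 : c₀ * (4 * ((b + B : ℕ) : ℝ) + 8) ≤ 1 / 24 := hμ4'.trans (min_le_right _ _)
  have hμ4 : c₀ * (4 * ((b + B : ℕ) : ℝ) + 8) ≤ μ / 2 := hμ4'.trans (min_le_left _ _)
  obtain ⟨A, hA⟩ : ∃ A : ℝ, A = 8 * c₀ / (κ * cV) := ⟨_, rfl⟩
  have hA0 : 0 ≤ A := by rw [hA]; positivity
  have hC20 : 0 ≤ C₂ := by linarith only [hC₂]
  have hk0 : (0 : ℝ) ≤ 2 * (2 : ℝ) := by positivity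
  obtain ⟨σ, hσ⟩ : ∃ σ : ℝ, σ = κ / (32 * ((1 + C₁) * (2 : ℝ))) := ⟨_, rfl⟩
  have hMC : 0 < (1 + C₁) * (2 : ℝ) := by
    have : 0 < 1 + C₁ := by linarith only [hC₁]
    positivity
  have hσ0 : 0 < σ := by rw [hσ]; positivity
  obtain ⟨E, hE⟩ : ∃ E : ℝ, E = 64 * ((1 + C₁) * (2 : ℝ)) / κ := ⟨_, rfl⟩
  have hE0 : 0 ≤ E := by rw [hE]; positivity
  have hev : ∀ᶠ X : ℝ in Filter.atTop, X₁ ≤ X ∧ 1 ≤ X ∧ 2 ≤ X ^ c₀ ∧ N₁ ≤ X ^ (1 / 2 : ℝ) ∧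
      2 ≤ X ^ (2 * ε) ∧ 3 ≤ X ^ (ε / 2) ∧
      A * C₂ * c₀ * Real.log X ^ 2 ≤ X ^ (3 / 8 : ℝ) ∧
      A * Real.log X ^ 1 ≤ X ^ (3 / 8 : ℝ) ∧ N₂ ≤ X ^ (1 / 2 : ℝ) ∧
      2 * Real.log X ^ 1 ≤ X ^ (c₀ / 2) ∧
      A * (2 * (2 : ℝ)) * Real.log X ^ 1 ≤ X ^ (c₀ / 2) ∧
      A * Real.log X ^ 1 ≤ X ^ (δ / 2) ∧
      1 ≤ Real.log X ∧ A * 4 * Real.log X ^ 1 ≤ X ^ (1 / 8 : ℝ) ∧
      E * Real.log X ^ 1 ≤ X ^ c₀ := by
    filter_upwards [Filter.eventually_ge_atTop X₁, Filter.eventually_ge_atTop (1 : ℝ),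
      (tendsto_rpow_atTop hc₀).eventually_ge_atTop 2,
      (tendsto_rpow_atTop (show (0 : ℝ) < 1 / 2 by norm_num)).eventually_ge_atTop N₁,
      (tendsto_rpow_atTop (show 0 < 2 * ε by linarith only [hε])).eventually_ge_atTop 2,
      (tendsto_rpow_atTop (show 0 < ε / 2 by linarith only [hε])).eventually_ge_atTop 3,
      VG_ev 2 (A * C₂ * c₀) (3 / 8) (mul_nonneg (mul_nonneg hA0 hC20) hc₀.le) (by norm_num),
      VG_ev 1 A (3 / 8) hA0 (by norm_num),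
      (tendsto_rpow_atTop (show (0 : ℝ) < 1 / 2 by norm_num)).eventually_ge_atTop N₂,
      VG_ev 1 2 (c₀ / 2) (by norm_num) (by linarith only [hc₀]),
      VG_ev 1 (A * (2 * (2 : ℝ))) (c₀ / 2) (mul_nonneg hA0 hk0)
        (by linarith only [hc₀]),
      VG_ev 1 A (δ / 2) hA0 (by linarith only [hδ]),
      Real.tendsto_log_atTop.eventually_ge_atTop 1,
      VG_ev 1 (A * 4) (1 / 8) (by positivity) (by norm_num),
      VG_ev 1 E c₀ hE0 hc₀] with X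
      h1 h2 h3 h4 h5 h6 h8 h9 h10 h11 h12 h13 h14 h15 h16
    exact ⟨h1, h2, h3, h4, h5, h6, h8, h9, h10, h11, h12, h13, h14, h15, h16⟩
  obtain ⟨X₀, hX₀⟩ := Filter.eventually_atTop.1 hev
  refine ⟨c₀, σ, X₀, hc₀, hσ0, fun X hX P F hF hcard => ?_⟩
  obtain ⟨g1, g2, g3, g4, g5, g6, g8, g9, g10, g11, g12, g13, g14, g15, g16⟩ := hX₀ X hX
  clear hX₀ hev
  rw [pow_one] at g9 g11 g12 g13 g15 g16
  rw [hA] at g8 g9 g12 g13 g15
  have hX0 : 0 < X := by linarith only [g2]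
  have hℓ0 : 0 < Real.log X := by linarith only [g14]
  obtain ⟨N, -, hNgt, hN12, hlN, hlN', -, -, -, -, -, -⟩ :=
    VG_sizes X ε c₀ (b + B) g2 hc₀ hμ3 g3 g5
  have hX1 : 1 ≤ X ^ (1 / 2 : ℝ) := Real.one_le_rpow g2 (by norm_num)
  have hN0 : (0 : ℝ) < N := by linarith only [hN12, hX1]
  have hlz : Real.log (X ^ c₀) = c₀ * Real.log X := Real.log_rpow hX0 _
  -- the good scale
  have hy : (N : ℝ) ^ (2 * θ') ≤ X ^ θ := by
    rw [Real.rpow_def_of_pos hN0, Real.rpow_def_of_pos hX0]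
    apply Real.exp_le_exp.2
    have h1 : Real.log N * (2 * θ') ≤ (1 / 2 + 2 * ε) * Real.log X * (2 * θ') :=
      mul_le_mul_of_nonneg_right hlN' (by linarith only [hθ'])
    have h2 : θ' * (1 + 4 * ε) * Real.log X ≤ θ * Real.log X :=
      mul_le_mul_of_nonneg_right hε' hℓ0.le
    linarith only [h1, h2]
  have hP : c₁ * N ≤ Psi N (X ^ θ) := by
    refine (hΨ N (g4.trans hN12)).trans ?_
    exact_mod_cast DE_psi_mono N hy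
  have hlogz : Real.log (X ^ c₀) ≤ μ * Real.log N := by
    rw [hlz]
    have h1 : c₀ ≤ μ / 2 := by
      refine le_trans ?_ hμ4
      have h2 : (1 : ℝ) ≤ 4 * ((b + B : ℕ) : ℝ) + 8 := by
        have h3 : (0 : ℝ) ≤ ((b + B : ℕ) : ℝ) := Nat.cast_nonneg _
        linarith only [h3]
      calc c₀ = c₀ * 1 := (mul_one _).symm
        _ ≤ _ := mul_le_mul_of_nonneg_left h2 hc₀.le
    have h2 := mul_le_mul_of_nonneg_right h1 hℓ0.le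
    have h3 := mul_le_mul_of_nonneg_left hlN hμ.le
    linarith only [h2, h3]
  obtain ⟨m, hm1, hmz, hSR⟩ := hgs N (X ^ c₀) (X ^ θ) c₁ (g10.trans hN12) g3 hlogz hP
  have hcor := DE_cor g2 hε hcorr g1 (fun d hd => ⟨(hF d hd).1, (hF d hd).2.1⟩) hμ1 hc₀ g3 g6
    hNgt hm1 hmz
  have hN' : X ^ (1 / 2 : ℝ) ≤ ((N / m : ℕ) : ℝ) := by
    have h1 := DE_range g2 hε hμ1 hc₀ g3 g6 hNgt hm1 hmz 1 le_rfl (by
      rw [Nat.cast_one]
      exact one_le_pow₀ (by linarith only [g3]))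
    rw [Nat.div_one] at h1
    refine le_trans ?_ h1
    exact Real.rpow_le_rpow_of_exponent_le g2 (by linarith only [hε])
  have hbB : (b : ℝ) ≤ ((b + B : ℕ) : ℝ) := by
    push_cast
    have : (0 : ℝ) ≤ B := Nat.cast_nonneg _
    linarith only [this]
  have hz1 : (X ^ c₀) ^ (4 * b + 5) = X ^ (c₀ * (4 * b + 5)) := by
    rw [← Real.rpow_natCast, ← Real.rpow_mul hX0.le]
    push_cast
    rfl
  have hle5 : c₀ * (4 * (b : ℝ) + 5) ≤ c₀ * (4 * ((b + B : ℕ) : ℝ) + 8) :=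
    mul_le_mul_of_nonneg_left (by linarith only [hbB]) hc₀.le
  have hF2 : ∀ d ∈ F, Twist.Fund d ∧ |(d : ℝ)| ≤ X := fun d hd => ⟨(hF d hd).1, (hF d hd).2.1⟩
  have hcard' : (F.card : ℝ) = 2 := by rw [hcard]; norm_num
  have hN'1 : (1 : ℝ) ≤ ((N / m : ℕ) : ℝ) := hX1.trans hN'
  have hVP1 := (hVP (X ^ c₀) g3).1
  have hlz0 : 0 < Real.log (X ^ c₀) := by rw [hlz]; positivity
  have hV0 : 0 < VP (fun p => 1 / (p : ℝ)) (PI 0 (X ^ c₀)) :=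
    lt_of_lt_of_le (by positivity) hVP1
  have hy1 : 1 ≤ X ^ θ := Real.one_le_rpow g2 (by linarith only [hθ', hθθ'])
  have hEx : ∑ p ∈ ExcP P F (X ^ c₀) (X ^ θ), ∑ n ∈ Icc 1 (N / m / p),
      Pool.Agent.M58.rh (X ^ c₀) n ≤
      κ / 8 * (((N / m : ℕ) : ℝ) * VP (fun p => 1 / (p : ℝ)) (PI 0 (X ^ c₀))) := by
    refine Ex_boundP (X := X) (σ := σ) (C₁ := C₁) (M := (2 : ℝ)) (t := 0) (b := b)
      g2 hb1 g3 hy1 hC₁ hV0.le rfl (by positivity) hcard'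
      (fun N => ((hup (X ^ c₀) b N g3 hb1).1).trans (hup (X ^ c₀) b N g3 hb1).2)
      (fun d hd => ⟨(hF d hd).1, (hF d hd).2.1, (hF d hd).2.2.le⟩) ?_ ?_ ?_
    · rw [hσ]
      refine le_of_eq ?_
      field_simp
    · have hz0 : 0 < X ^ c₀ := by positivity
      have h1 : (1 + C₁) * ((2 : ℝ) * (2 * Real.log X / X ^ c₀)) =
          κ / 32 * (E * Real.log X / X ^ c₀) := by
        rw [hE]
        field_simp
        ring
      rw [h1]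
      have h2 : E * Real.log X / X ^ c₀ ≤ 1 := by
        rw [div_le_one hz0]; exact g16
      have h3 := mul_le_mul_of_nonneg_left h2 (show 0 ≤ κ / 32 by positivity)
      linarith only [h3]
    · obtain ⟨t, ht⟩ : ∃ t, t = cV / (c₀ * Real.log X) := ⟨_, rfl⟩
      have q15 : 4 ≤ κ / 8 * t * X ^ (1 / 8 : ℝ) := by
        refine VG_q hκ hcV hc₀ hℓ0 ht ?_
        refine le_trans (le_of_eq ?_) g15
        ring
      have hZle : (X ^ c₀) ^ (4 * b + 5) ≤ X ^ (1 / 24 : ℝ) := by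
        rw [hz1]
        exact Real.rpow_le_rpow_of_exponent_le g2 (hle5.trans hμ5)
      have hyle : X ^ θ ≤ X ^ (1 / 3 : ℝ) := Real.rpow_le_rpow_of_exponent_le g2 hθ4
      have hWt : ((N / m : ℕ) : ℝ) * t ≤
          ((N / m : ℕ) : ℝ) * VP (fun p => 1 / (p : ℝ)) (PI 0 (X ^ c₀)) := by
        apply mul_le_mul_of_nonneg_left _ (by linarith only [hN'1])
        rw [ht, ← hlz]
        exact hVP1
      have ht0 : 0 < t := by rw [ht]; positivity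
      have h8 : X ^ (1 / 3 : ℝ) * X ^ (1 / 24 : ℝ) * X ^ (1 / 8 : ℝ) = X ^ (1 / 2 : ℝ) := by
        rw [← Real.rpow_add hX0, ← Real.rpow_add hX0]
        norm_num
      have h9 : X ^ θ * (X ^ c₀) ^ (4 * b + 5) ≤ X ^ (1 / 3 : ℝ) * X ^ (1 / 24 : ℝ) :=
        mul_le_mul hyle hZle (by positivity) (by positivity)
      have h10 : 4 * (X ^ (1 / 3 : ℝ) * X ^ (1 / 24 : ℝ)) ≤
          κ / 8 * t * X ^ (1 / 2 : ℝ) := by
        have h11 := mul_le_mul_of_nonneg_right q15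
          (show 0 ≤ X ^ (1 / 3 : ℝ) * X ^ (1 / 24 : ℝ) by positivity)
        refine h11.trans (le_of_eq ?_)
        rw [← h8]
        ring
      have h12 : κ / 8 * t * X ^ (1 / 2 : ℝ) ≤ κ / 8 * (((N / m : ℕ) : ℝ) * t) := by
        have h13 := mul_le_mul_of_nonneg_left hN' (show 0 ≤ κ / 8 * t by positivity)
        linarith only [h13]
      have h14 := mul_le_mul_of_nonneg_left hWt (show 0 ≤ κ / 8 by positivity)
      linarith only [h9, h10, h12, h14]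
  refine DG_fix0 (P := P) (X := X) (ℓ := Real.log X) (z := X ^ c₀) (y := X ^ θ)
    (A8 := X ^ (1 / 8 : ℝ)) (B38 := X ^ (3 / 8 : ℝ)) (Dδ := X ^ (δ / 2)) (Dδ' := X ^ (-δ))
    (N := N / m) hcard hb1 hκ hc₀ hcV hC₁ hC₂ hc₁ hb hup hVP g2 rfl hℓ0 g3 hlz
    (hX1.trans hN') ?_ ?_ (Real.rpow_pos_of_pos hX0 _) ?_ ?_ (Real.rpow_pos_of_pos hX0 _)
    (Real.rpow_pos_of_pos hX0 _) ?_ ?_ hEx hcor hSR
  · rw [← Real.rpow_add hX0]
    norm_num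
    exact hN'
  · rw [hz1]
    exact Real.rpow_le_rpow_of_exponent_le g2 (hle5.trans hμ3)
  · rw [hz1]
    exact Real.rpow_le_rpow_of_exponent_le g2 (hle5.trans hμ2)
  · rw [← Real.rpow_add hX0, ← Real.rpow_add hX0]
    have : δ / 2 + -δ + δ / 2 = 0 := by ring
    rw [this, Real.rpow_zero]
  · rw [mul_one]; exact g9
  · rw [mul_one]; exact g13

end Pat65
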