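import Pool.Agent.W_aaa0df_p65.PatC
import Pool.Agent.W_aaa0df_p65.PatD

/-!
# Prescribed splitting patterns: at most `max 1 (2 k)` exceptions, `k ≥ 0`
-/

set_option autoImplicit false

noncomputable section

open Finset MPaaa0df BG

namespace Pat65

theorem few_smooth0 (θ θ' c₁ : ℝ) (hθ' : 0 < θ') (hθθ' : θ' < θ)
    (hθ4 : θ ≤ 1 / 3) (hc : 1 / 2 < c₁)
    (hΨ : ∃ N₀ : ℝ, ∀ N : ℕ, N₀ ≤ N → c₁ * N ≤ Psi N ((N : ℝ) ^ (2 * θ'))) :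
    ∃ c σ X₀ : ℝ, 0 < c ∧ 0 < σ ∧ ∀ X : ℝ, X₀ ≤ X → ∀ (P : ℕ → Prop) (F : Finset ℤ),
      (∀ d ∈ F, Twist.Fund d ∧ |(d : ℝ)| ≤ X ∧ patSum P d (X ^ c) (X ^ θ) < σ) →
      F.card ≤ 1 := by
  obtain ⟨c, σ, X₀, hc', hσ, h⟩ := DG_main0 θ θ' c₁ hθ' hθθ' hθ4 hc hΨ
  refine ⟨c, σ, X₀, hc', hσ, fun X hX P F hF => ?_⟩
  by_contra hlt
  rw [not_le] at hlt
  obtain ⟨F', hF', hcard⟩ := Finset.exists_subset_card_eq (show 2 ≤ F.card from hlt)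
  exact h X hX P F' (fun d hd => hF d (hF' hd)) hcard

theorem few_quarter0 (ρ : ℝ → ℝ) (hρ : IsDickman ρ) (θ : ℝ)
    (hθ : 0 < θ) (hθ4 : θ ≤ 1 / 3) (h : 1 / 2 < ρ (1 / (2 * θ))) :
    ∃ c σ X₀ : ℝ, 0 < c ∧ 0 < σ ∧ ∀ X : ℝ, X₀ ≤ X → ∀ (P : ℕ → Prop) (F : Finset ℤ),
      (∀ d ∈ F, Twist.Fund d ∧ |(d : ℝ)| ≤ X ∧ patSum P d (X ^ c) (X ^ θ) < σ) →
      F.card ≤ 1 := by
  obtain ⟨θ', hθ'1, hθ'2, hθ'3⟩ : ∃ θ' : ℝ, θ / 2 < θ' ∧ θ' < θ ∧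
      1 / 2 < ρ (1 / (2 * θ')) := by
    have hc : ContinuousAt (fun t : ℝ => ρ (1 / (2 * t))) θ := by
      refine ContinuousAt.comp (g := ρ) hρ.1.continuousAt ?_
      refine ContinuousAt.div continuousAt_const (by fun_prop) ?_
      positivity
    have h1 : ∀ᶠ t in nhds θ, 1 / 2 < ρ (1 / (2 * t)) :=
      hc.eventually (lt_mem_nhds h)
    have h2 : ∀ᶠ t in nhds θ, θ / 2 < t := lt_mem_nhds (by linarith)
    have h3 : ∀ᶠ t in nhdsWithin θ (Set.Iio θ), t < θ := self_mem_nhdsWithin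
    obtain ⟨t, ⟨ht1, ht2⟩, ht3⟩ :=
      (((h1.and h2).filter_mono nhdsWithin_le_nhds).and h3).exists
    exact ⟨t, ht2, ht3, ht1⟩
  have hθ'0 : 0 < θ' := by linarith
  set R : ℝ := ρ (1 / (2 * θ')) with hR
  set ε : ℝ := (R - 1 / 2) / 4 with hε
  have hε0 : 0 < ε := by rw [hε]; linarith
  obtain ⟨C, hC0, hC⟩ := dickman_uniform ρ hρ (⌈1 / (2 * θ')⌉₊ + 1) (by omega) ε hε0
  refine few_smooth0 θ θ' (1 / 2 + 2 * ε) hθ'0 hθ'2 hθ4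
    (by linarith) ⟨max ((2 : ℝ) ^ (1 / (2 * θ'))) (C / ε), fun N hN => ?_⟩
  have hN1 : (2 : ℝ) ^ (1 / (2 * θ')) ≤ N := (le_max_left _ _).trans hN
  have hN2 : C / ε ≤ N := (le_max_right _ _).trans hN
  have h2 : (1 : ℝ) < (2 : ℝ) ^ (1 / (2 * θ')) :=
    Real.one_lt_rpow (by norm_num) (by positivity)
  have hN0 : (1 : ℝ) < N := h2.trans_le hN1
  have hlog : 0 < Real.log N := Real.log_pos hN0
  have hy : (2 : ℝ) ≤ (N : ℝ) ^ (2 * θ') := by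
    have h3 := Real.rpow_le_rpow (by positivity) hN1 (by positivity : 0 ≤ 2 * θ')
    rw [← Real.rpow_mul (by norm_num)] at h3
    have h4 : 1 / (2 * θ') * (2 * θ') = 1 := by field_simp
    rw [h4, Real.rpow_one] at h3
    exact h3
  have hly : Real.log ((N : ℝ) ^ (2 * θ')) = 2 * θ' * Real.log N :=
    Real.log_rpow (by linarith) _
  have hK : Real.log N ≤ ((⌈1 / (2 * θ')⌉₊ + 1 : ℕ) : ℝ) * Real.log ((N : ℝ) ^ (2 * θ')) := by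
    rw [hly, ← mul_assoc]
    have h5 : (1 : ℝ) / (2 * θ') ≤ ((⌈1 / (2 * θ')⌉₊ + 1 : ℕ) : ℝ) := by
      push_cast
      have h6 := Nat.le_ceil (1 / (2 * θ'))
      linarith
    have h7 : (1 : ℝ) ≤ ((⌈1 / (2 * θ')⌉₊ + 1 : ℕ) : ℝ) * (2 * θ') := by
      have h8 := mul_le_mul_of_nonneg_right h5 (by positivity : 0 ≤ 2 * θ')
      have h9 : 1 / (2 * θ') * (2 * θ') = 1 := by field_simp
      rw [h9] at h8
      exact h8
    have h10 := mul_le_mul_of_nonneg_right h7 hlog.le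
    linarith
  have hu : Real.log N / Real.log ((N : ℝ) ^ (2 * θ')) = 1 / (2 * θ') := by
    rw [hly]
    field_simp
  have h11 := hC N ((N : ℝ) ^ (2 * θ')) hN0.le hy hK
  rw [hu] at h11
  have h12 := (abs_le.1 h11).1
  have h13 : C ≤ ε * N := by
    rw [div_le_iff₀ hε0] at hN2
    linarith
  have h14 : R = 1 / 2 + 4 * ε := by rw [hε]; ring
  rw [← hR] at h12
  have h15 : R * N = (1 / 2) * N + 4 * (ε * N) := by
    rw [h14]; ring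
  have h16 : (1 / 2 + 2 * ε) * N =
      (1 / 2) * N + 2 * (ε * N) := by ring
  rw [h16]
  linarith

theorem dickman_32 (ρ : ℝ → ℝ) (hρ : IsDickman ρ) : 1 / 2 < ρ (3 / 2) := by
  have h1 := hρ.2.2 (3 / 2) (by norm_num)
  have h2 : ∫ t in (1 : ℝ)..(3 / 2), ρ (t - 1) / t = ∫ t in (1 : ℝ)..(3 / 2), 1 / t := by
    refine intervalIntegral.integral_congr fun t ht => ?_
    rw [Set.uIcc_of_le (by norm_num)] at ht
    show ρ (t - 1) / t = 1 / t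
    rw [hρ.2.1 (t - 1) (by linarith [ht.2])]
  rw [h2, integral_one_div_of_pos (by norm_num) (by norm_num), div_one] at h1
  have h3 := Real.log_lt_sub_one_of_pos (show (0 : ℝ) < 3 / 2 by norm_num) (by norm_num)
  rw [h1]
  linarith

theorem few_dickman0 (ρ : ℝ → ℝ) (hρ : IsDickman ρ) (θ : ℝ)
    (hθ : 0 < θ) (h : 1 / 2 < ρ (1 / (2 * θ))) :
    ∃ c σ X₀ : ℝ, 0 < c ∧ 0 < σ ∧ ∀ X : ℝ, X₀ ≤ X → ∀ (P : ℕ → Prop) (F : Finset ℤ),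
      (∀ d ∈ F, Twist.Fund d ∧ |(d : ℝ)| ≤ X ∧ patSum P d (X ^ c) (X ^ θ) < σ) →
      F.card ≤ 1 := by
  rcases le_or_gt θ (1 / 3) with h4 | h4
  · exact few_quarter0 ρ hρ θ hθ h4 h
  · have h5 : 1 / 2 < ρ (1 / (2 * (1 / 3 : ℝ))) := by
      have h6 : (1 : ℝ) / (2 * (1 / 3)) = 3 / 2 := by norm_num
      rw [h6]
      exact dickman_32 ρ hρ
    obtain ⟨c, σ, X₀, hc, hσ, hm⟩ := few_quarter0 ρ hρ (1 / 3) (by norm_num) le_rfl h5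
    refine ⟨c, σ, max X₀ 1, hc, hσ, fun X hX P F hF => ?_⟩
    have hX1 : 1 ≤ X := (le_max_right _ _).trans hX
    refine hm X ((le_max_left _ _).trans hX) P F fun d hd => ?_
    obtain ⟨a1, a2, a3⟩ := hF d hd
    exact ⟨a1, a2, (patSum_mono₂ P d le_rfl
      (Real.rpow_le_rpow_of_exponent_le hX1 h4.le)).trans_lt a3⟩

/-- At most `max 1 (2 k)` exceptions, `k ≥ 0`. -/
theorem few_dickmanM (ρ : ℝ → ℝ) (hρ : IsDickman ρ) (k : ℕ) (θ : ℝ)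
    (hθ : 0 < θ) (h : 1 / (2 * (k : ℝ) + 2) < ρ (1 / (2 * θ))) :
    ∃ c σ X₀ : ℝ, 0 < c ∧ 0 < σ ∧ ∀ X : ℝ, X₀ ≤ X → ∀ (P : ℕ → Prop) (F : Finset ℤ),
      (∀ d ∈ F, Twist.Fund d ∧ |(d : ℝ)| ≤ X ∧ patSum P d (X ^ c) (X ^ θ) < σ) →
      F.card ≤ max 1 (2 * k) := by
  rcases Nat.eq_zero_or_pos k with hk | hk
  · rw [hk, Nat.cast_zero, mul_zero, zero_add] at h
    obtain ⟨c, σ, X₀, hc, hσ, hm⟩ := few_dickman0 ρ hρ θ hθ h
    exact ⟨c, σ, X₀, hc, hσ, fun X hX P F hF => (hm X hX P F hF).trans (le_max_left _ _)⟩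
  · obtain ⟨c, σ, X₀, hc, hσ, hm⟩ := few_dickmanP ρ hρ k hk θ hθ h
    exact ⟨c, σ, X₀, hc, hσ, fun X hX P F hF => (hm X hX P F hF).trans (le_max_right _ _)⟩

/-- The forms for a fixed scale and for the scales `X ≤ |d| ≤ X ^ (1 + η)`. -/
theorem few_rangeM (ρ : ℝ → ℝ) (hρ : IsDickman ρ) (k : ℕ) (θ : ℝ)
    (hθ : 0 < θ) (h : 1 / (2 * (k : ℝ) + 2) < ρ (1 / (2 * θ))) :
    ∃ c σ η X₀ : ℝ, 0 < c ∧ 0 < σ ∧ 0 < η ∧ 1 ≤ X₀ ∧ ∀ X : ℝ, X₀ ≤ X → ∀ P : ℕ → Prop,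
      (∀ F : Finset ℤ,
        (∀ d ∈ F, Twist.Fund d ∧ |(d : ℝ)| ≤ X ∧ patSum P d (X ^ c) (X ^ θ) < σ) →
        F.card ≤ max 1 (2 * k)) ∧
      ∀ F : Finset ℤ,
        (∀ d ∈ F, Twist.Fund d ∧ X ≤ |(d : ℝ)| ∧ |(d : ℝ)| ≤ X ^ (1 + η) ∧
          patSum P d (|(d : ℝ)| ^ c) (|(d : ℝ)| ^ θ) < σ) →
        F.card ≤ max 1 (2 * k) := by
  obtain ⟨θ', hθ'1, hθ'2, hθ'3⟩ : ∃ θ' : ℝ, θ / 2 < θ' ∧ θ' < θ ∧
      1 / (2 * (k : ℝ) + 2) < ρ (1 / (2 * θ')) := by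
    have hc : ContinuousAt (fun t : ℝ => ρ (1 / (2 * t))) θ := by
      refine ContinuousAt.comp (g := ρ) hρ.1.continuousAt ?_
      refine ContinuousAt.div continuousAt_const (by fun_prop) ?_
      positivity
    have h1 : ∀ᶠ t in nhds θ, 1 / (2 * (k : ℝ) + 2) < ρ (1 / (2 * t)) :=
      hc.eventually (lt_mem_nhds h)
    have h2 : ∀ᶠ t in nhds θ, θ / 2 < t := lt_mem_nhds (by linarith)
    have h3 : ∀ᶠ t in nhdsWithin θ (Set.Iio θ), t < θ := self_mem_nhdsWithin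
    obtain ⟨t, ⟨ht1, ht2⟩, ht3⟩ :=
      (((h1.and h2).filter_mono nhdsWithin_le_nhds).and h3).exists
    exact ⟨t, ht2, ht3, ht1⟩
  have hθ'0 : 0 < θ' := by linarith
  obtain ⟨c, σ, X₀, hc, hσ, hm⟩ := few_dickmanM ρ hρ k θ' hθ'0 hθ'3
  have hη : 0 < θ / θ' - 1 := by
    rw [sub_pos, one_lt_div hθ'0]
    exact hθ'2
  refine ⟨c, σ, θ / θ' - 1, max X₀ 1, hc, hσ, hη, le_max_right _ _, fun X hX P => ⟨?_, ?_⟩⟩
  · intro F hF
    have hX1 : 1 ≤ X := (le_max_right _ _).trans hX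
    refine hm X ((le_max_left _ _).trans hX) P F fun d hd => ?_
    obtain ⟨a1, a2, a3⟩ := hF d hd
    exact ⟨a1, a2,
      (patSum_mono₂ P d le_rfl (Real.rpow_le_rpow_of_exponent_le hX1 hθ'2.le)).trans_lt a3⟩
  · intro F hF
    have hX1 : 1 ≤ X := (le_max_right _ _).trans hX
    have hX0 : 0 < X := by linarith
    have he : 1 + (θ / θ' - 1) = θ / θ' := by ring
    rw [he] at hF
    have h1 : X ≤ X ^ (θ / θ') := by
      have := Real.rpow_le_rpow_of_exponent_le hX1 (show (1 : ℝ) ≤ θ / θ' by linarith)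
      rwa [Real.rpow_one] at this
    have h2 : (X ^ (θ / θ')) ^ θ' = X ^ θ := by
      rw [← Real.rpow_mul hX0.le]
      congr 1
      field_simp
    refine hm (X ^ (θ / θ')) (((le_max_left _ _).trans hX).trans h1) P F fun d hd => ?_
    obtain ⟨a1, a2, a3, a4⟩ := hF d hd
    refine ⟨a1, a3, (patSum_mono₂ P d ?_ ?_).trans_lt a4⟩
    · exact Real.rpow_le_rpow (abs_nonneg _) a3 hc.le
    · rw [h2]
      exact Real.rpow_le_rpow hX0.le a2 hθ.le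

/-- The scales `Y ^ ((1 + η) ^ j)`. -/
theorem scalesM {P : ℤ → Prop} {M : ℕ} {η Y : ℝ} (hη : 0 < η) (hY : 1 ≤ Y)
    (h : ∀ X : ℝ, Y ≤ X → ∀ F : Finset ℤ,
      (∀ d ∈ F, P d ∧ X ≤ |(d : ℝ)| ∧ |(d : ℝ)| ≤ X ^ (1 + η)) → F.card ≤ M) (j : ℕ) :
    ∀ F : Finset ℤ, (∀ d ∈ F, P d ∧ |(d : ℝ)| ≤ Y ^ ((1 + η) ^ j)) →
      (F.card : ℝ) ≤ 2 * Y + 1 + M * j := by
  classical
  induction j with
  | zero =>
    intro F hF
    have h1 := W71.card_small F Y (by linarith) fun d hd => by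
      have := (hF d hd).2
      rwa [pow_zero, Real.rpow_one] at this
    push_cast
    linarith
  | succ j ih =>
    intro F hF
    have hY0 : 0 < Y := by linarith
    have h1 := ih (F.filter fun d : ℤ => |(d : ℝ)| ≤ Y ^ ((1 + η) ^ j)) fun d hd => by
      rw [mem_filter] at hd
      exact ⟨(hF d hd.1).1, hd.2⟩
    have hYj : Y ≤ Y ^ ((1 + η) ^ j) := by
      have := Real.rpow_le_rpow_of_exponent_le hY (one_le_pow₀ (show (1 : ℝ) ≤ 1 + η by linarith)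
        (n := j))
      rwa [Real.rpow_one] at this
    have h2 := h (Y ^ ((1 + η) ^ j)) hYj (F.filter fun d : ℤ => ¬ |(d : ℝ)| ≤ Y ^ ((1 + η) ^ j))
      fun d hd => by
        rw [mem_filter] at hd
        obtain ⟨a1, a2⟩ := hF d hd.1
        refine ⟨a1, (not_le.1 hd.2).le, a2.trans (le_of_eq ?_)⟩
        rw [← Real.rpow_mul hY0.le, pow_succ]
    have h3 := Finset.card_filter_add_card_filter_not (s := F)
      (fun d : ℤ => |(d : ℝ)| ≤ Y ^ ((1 + η) ^ j))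
    have h4 : (F.card : ℝ) = ((F.filter fun d : ℤ => |(d : ℝ)| ≤ Y ^ ((1 + η) ^ j)).card : ℝ) +
        ((F.filter fun d : ℤ => ¬ |(d : ℝ)| ≤ Y ^ ((1 + η) ^ j)).card : ℝ) := by
      exact_mod_cast h3.symm
    have h5 : ((F.filter fun d : ℤ => ¬ |(d : ℝ)| ≤ Y ^ ((1 + η) ^ j)).card : ℝ) ≤ (M : ℝ) := by
      exact_mod_cast h2
    push_cast
    linarith

/-- Few exceptions up to `X`, double logarithmically. -/
theorem loglogM {M : ℕ} {η Y : ℝ} (hη : 0 < η) :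
    ∃ C X₁ : ℝ, ∀ P : ℤ → Prop, (∀ X : ℝ, Y ≤ X → ∀ F : Finset ℤ,
      (∀ d ∈ F, P d ∧ X ≤ |(d : ℝ)| ∧ |(d : ℝ)| ≤ X ^ (1 + η)) → F.card ≤ M) →
      ∀ X : ℝ, X₁ ≤ X → ∀ F : Finset ℤ, (∀ d ∈ F, P d ∧ |(d : ℝ)| ≤ X) →
      (F.card : ℝ) ≤ C * Real.log (Real.log X) := by
  obtain ⟨Z, hZ⟩ : ∃ Z : ℝ, Z = max Y (Real.exp 1) := ⟨_, rfl⟩
  have hZe : Real.exp 1 ≤ Z := by rw [hZ]; exact le_max_right _ _
  have hZY : Y ≤ Z := by rw [hZ]; exact le_max_left _ _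
  have he1 : (1 : ℝ) ≤ Real.exp 1 := Real.one_le_exp (by norm_num)
  have hZ1 : 1 ≤ Z := he1.trans hZe
  have hZ0 : 0 < Z := by linarith
  have hlη : 0 < Real.log (1 + η) := Real.log_pos (by linarith)
  have hlZ : 1 ≤ Real.log Z := by
    rw [Real.le_log_iff_exp_le hZ0]; exact hZe
  refine ⟨2 * Z + 1 + M + M / Real.log (1 + η), Real.exp (Real.exp 1),
    fun P h X hX F hF => ?_⟩
  have hs := scalesM (P := P) (M := M) hη hZ1 fun X hX => h X (hZY.trans hX)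
  have hX0 : 0 < X := (Real.exp_pos _).trans_le hX
  have hlX : Real.exp 1 ≤ Real.log X := by
    rw [Real.le_log_iff_exp_le hX0]; exact hX
  have hlX0 : 0 < Real.log X := (Real.exp_pos _).trans_le hlX
  have hL1 : 1 ≤ Real.log (Real.log X) := by
    rw [Real.le_log_iff_exp_le hlX0]; exact hlX
  obtain ⟨j, hj⟩ : ∃ j : ℕ, j = ⌈Real.log (Real.log X) / Real.log (1 + η)⌉₊ := ⟨_, rfl⟩
  have hj1 : Real.log (Real.log X) / Real.log (1 + η) ≤ j := by rw [hj]; exact Nat.le_ceil _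
  have hj2 : (j : ℝ) ≤ Real.log (Real.log X) / Real.log (1 + η) + 1 := by
    rw [hj]
    exact (Nat.ceil_lt_add_one (by positivity)).le
  have h1 : Real.log X ≤ (1 + η) ^ j := by
    rw [div_le_iff₀ hlη] at hj1
    have h2 : Real.log (Real.log X) ≤ Real.log ((1 + η) ^ j) := by
      rw [Real.log_pow]; exact hj1
    exact (Real.log_le_log_iff hlX0 (by positivity)).1 h2
  have h2 : X ≤ Z ^ ((1 + η) ^ j) := by
    rw [← Real.log_le_log_iff hX0 (by positivity), Real.log_rpow hZ0]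
    have h3 := mul_le_mul_of_nonneg_left hlZ (show 0 ≤ (1 + η) ^ j by positivity)
    linarith
  have h3 := hs j F fun d hd => ⟨(hF d hd).1, (hF d hd).2.trans h2⟩
  have hk0 : (0 : ℝ) ≤ M := by positivity
  have h4 := mul_le_mul_of_nonneg_left hj2 hk0
  have h5 : (2 * Z + 1 + (M : ℝ)) * 1 ≤ (2 * Z + 1 + (M : ℝ)) * Real.log (Real.log X) :=
    mul_le_mul_of_nonneg_left hL1 (by positivity)
  have h6 : (M : ℝ) * (Real.log (Real.log X) / Real.log (1 + η) + 1) =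
      M / Real.log (1 + η) * Real.log (Real.log X) + M := by
    field_simp
  have h7 : (2 * Z + 1 + M + M / Real.log (1 + η)) * Real.log (Real.log X) =
      (2 * Z + 1 + (M : ℝ)) * Real.log (Real.log X) +
        M / Real.log (1 + η) * Real.log (Real.log X) := by ring
  rw [h7]
  linarith

/-- All forms together, for every pattern. -/
theorem few_allM (ρ : ℝ → ℝ) (hρ : IsDickman ρ) (k : ℕ) (θ : ℝ)
    (hθ : 0 < θ) (h : 1 / (2 * (k : ℝ) + 2) < ρ (1 / (2 * θ))) :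
    ∃ c σ η C X₀ : ℝ, 0 < c ∧ 0 < σ ∧ 0 < η ∧ ∀ X : ℝ, X₀ ≤ X → ∀ (P : ℕ → Prop)
      (F : Finset ℤ),
      ((∀ d ∈ F, Twist.Fund d ∧ |(d : ℝ)| ≤ X ∧ patSum P d (X ^ c) (X ^ θ) < σ) →
        F.card ≤ max 1 (2 * k)) ∧
      ((∀ d ∈ F, Twist.Fund d ∧ X ≤ |(d : ℝ)| ∧ |(d : ℝ)| ≤ X ^ (1 + η) ∧
          patSum P d (|(d : ℝ)| ^ c) (|(d : ℝ)| ^ θ) < σ) →
        F.card ≤ max 1 (2 * k)) ∧
      ((∀ d ∈ F, Twist.Fund d ∧ |(d : ℝ)| ≤ X ∧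
          patSum P d (|(d : ℝ)| ^ c) (|(d : ℝ)| ^ θ) < σ) →
        (F.card : ℝ) ≤ C * Real.log (Real.log X)) := by
  obtain ⟨c, σ, η, X₀, hc, hσ, hη, hX₀, hm⟩ := few_rangeM ρ hρ k θ hθ h
  obtain ⟨C, X₁, hC⟩ := loglogM (M := max 1 (2 * k)) (η := η) (Y := X₀) hη
  refine ⟨c, σ, η, C, max X₀ X₁, hc, hσ, hη, fun X hX P F => ⟨?_, ?_, ?_⟩⟩
  · exact (hm X ((le_max_left _ _).trans hX) P).1 F
  · exact (hm X ((le_max_left _ _).trans hX) P).2 F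
  · intro hF
    exact hC (fun d => Twist.Fund d ∧ patSum P d (|(d : ℝ)| ^ c) (|(d : ℝ)| ^ θ) < σ)
      (fun X hX F hF => (hm X hX P).2 F fun d hd =>
        ⟨(hF d hd).1.1, (hF d hd).2.1, (hF d hd).2.2, (hF d hd).1.2⟩)
      X ((le_max_right _ _).trans hX) F fun d hd =>
      ⟨⟨(hF d hd).1, (hF d hd).2.2⟩, (hF d hd).2.1⟩

end Pat65
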